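import Pool.Agent.LibTR13.FinB

/-!
MP_db25a0_nt: degrees of irreducible binary trinomials, upper bound for the upper density.
-/

set_option autoImplicit false

namespace Pool.Agent.Results.MP_db25a0_nt.TwoThirds

open Polynomial Finset Filter

/-- For all large `N`, at most `(2/3) N` of the integers `n ≤ N` are degrees of an irreducible
polynomial over `𝔽₂` with exactly three nonzero coefficients. -/
theorem result : ∀ᶠ N : ℕ in atTop,
    (({n : ℕ | 1 ≤ n ∧ n ≤ N ∧
        ∃ f : (ZMod 2)[X], f.support.card = 3 ∧ f.natDegree = n ∧ Irreducible f}.ncard : ℕ) : ℝ)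
      ≤ 2 / 3 * N := by
  classical
  filter_upwards [TR.main_count] with N hN
  have h1 : {n : ℕ | 1 ≤ n ∧ n ≤ N ∧
        ∃ f : (ZMod 2)[X], f.support.card = 3 ∧ f.natDegree = n ∧ Irreducible f} =
      (((Icc 1 N).filter fun n => n ∈ TR.TT : Finset ℕ) : Set ℕ) := by
    ext n
    rw [Set.mem_setOf_eq, mem_coe, mem_filter, mem_Icc, and_assoc]
    rfl
  rw [h1, Set.ncard_coe_finset]
  exact hN _ (filter_subset _ _) fun n hn => (mem_filter.1 hn).2

end Pool.Agent.Results.MP_db25a0_nt.TwoThirds
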